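import Pool.Agent.R167.CL.UlamB
import Pool.Agent.R167.CL.Prof
import Pool.Agent.R167.CL.Ineq
import Pool.Agent.R167.CL.AreaH
import Pool.Agent.R167.CL.Plane
import Pool.Agent.R167.CL.Space

/-!
# Every convex body in space packs with density at least `0.43`

Every convex body `K` in Euclidean three-space has a packing by congruent copies, in fact by
translates of `K` and of its point reflection `-K`, of upper density at least `0.43`.
-/

namespace Pool.Agent.Results.MP_c7c9bf_co.UniversalDensityPointFourThree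

open MeasureTheory Pool.Agent.R167.CL

theorem result (K : Set (EuclideanSpace ℝ (Fin 3))) (hK : IsCompact K) (hc : Convex ℝ K)
    (hne : (interior K).Nonempty) :
    ∃ f : ℕ → (EuclideanSpace ℝ (Fin 3) ≃ᵢ EuclideanSpace ℝ (Fin 3)),
      (∀ i, ∃ a, (∀ x, f i x = x + a) ∨ (∀ x, f i x = a - x)) ∧
      (∀ i j : ℕ, i ≠ j → Disjoint (interior ((f i) '' K)) (interior ((f j) '' K))) ∧
      ENNReal.ofReal 0.43 ≤ Filter.limsup (fun R : ℝ =>
        volume ((⋃ i : ℕ, (f i) '' K) ∩ Metric.ball (0 : EuclideanSpace ℝ (Fin 3)) R) /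
          volume (Metric.ball (0 : EuclideanSpace ℝ (Fin 3)) R)) Filter.atTop :=
  ulam_aux' (t_LOW (t_PROF t_INEQ) (t_PLANE t_AREA) t_SPACE) K hK hc hne

end Pool.Agent.Results.MP_c7c9bf_co.UniversalDensityPointFourThree
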